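import Pool.Agent.W231.V.Quad

set_option autoImplicit false
set_option linter.unusedSectionVars false

/-!
Residue classes modulo the powers of a prime; the pigeonhole principle.
-/

namespace Pool.Agent.J4.H51.El

open NumberField IsDedekindDomain Height Pool.Agent.W231.V

variable {K : Type*} [Field K] [NumberField K]

lemma one_lt_nn (v : HeightOneSpectrum (𝓞 K)) : (1 : NNReal) < (Ideal.absNorm v.asIdeal : NNReal) := by
  exact_mod_cast NumberField.HeightOneSpectrum.one_lt_absNorm v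

lemma val_le_iff (v : HeightOneSpectrum (𝓞 K)) (x : K) (m : ℕ) :
    v.valuation K x ≤ WithZero.exp (-(m : ℤ)) ↔ fv v x ≤ ((Ideal.absNorm v.asIdeal : ℝ) ^ m)⁻¹ := by
  have h1 : fv v x = _ := NumberField.FinitePlace.norm_embedding' (v := v) (x := x)
  have h2 := (WithZeroMulInt.toNNReal_strictMono (one_lt_nn v)).le_iff_le
    (a := v.valuation K x) (b := WithZero.exp (-(m : ℤ)))
  have h3 : WithZeroMulInt.toNNReal (one_lt_nn v).ne_zero (WithZero.exp (-(m : ℤ))) =
      ((Ideal.absNorm v.asIdeal : NNReal) ^ m)⁻¹ := by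
    rw [WithZeroMulInt.toNNReal_neg_apply _ WithZero.exp_ne_zero]
    have h4 : WithZero.unzero (WithZero.exp_ne_zero (a := -(m : ℤ))) =
        Multiplicative.ofAdd (-(m : ℤ)) := WithZero.unzero_coe _
    rw [h4, toAdd_ofAdd, zpow_neg, zpow_natCast]
  rw [h3] at h2
  rw [← h2, h1, ← NNReal.coe_le_coe]
  push_cast
  rfl

lemma exists_class (v : HeightOneSpectrum (𝓞 K)) (m : ℕ) (x : K) (hx : fv v x ≤ 1) :
    ∃ r : 𝓞 K, fv v (x - r) ≤ ((Ideal.absNorm v.asIdeal : ℝ) ^ m)⁻¹ := by
  have h1 : v.valuation K x ≤ 1 := by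
    have := (val_le_iff v x 0).2 (by simpa using hx)
    simpa using this
  obtain ⟨r, hr⟩ := v.exists_valuation_sub_lt_of_integer h1
    (Units.mk0 (WithZero.exp (-(m : ℤ))) WithZero.exp_ne_zero)
  refine ⟨r, ?_⟩
  rw [← val_le_iff, Valuation.map_sub_swap]
  exact hr.le

lemma sub_of_mem (v : HeightOneSpectrum (𝓞 K)) (m : ℕ) {r : 𝓞 K} (h : r ∈ v.asIdeal ^ m) :
    fv v (r : K) ≤ ((Ideal.absNorm v.asIdeal : ℝ) ^ m)⁻¹ := by
  rw [← val_le_iff, v.valuation_of_algebraMap]
  exact (v.intValuation_le_pow_iff_mem r m).2 h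

open Classical in
/-- the class modulo the power `m` of `v` -/
noncomputable def cls (v : HeightOneSpectrum (𝓞 K)) (m : ℕ) (x : K) : 𝓞 K ⧸ v.asIdeal ^ m :=
  if h : fv v x ≤ 1 then Ideal.Quotient.mk _ (exists_class v m x h).choose else 0

lemma cls_eq (v : HeightOneSpectrum (𝓞 K)) (m : ℕ) {x y : K} (hx : fv v x ≤ 1) (hy : fv v y ≤ 1)
    (h : cls v m x = cls v m y) : fv v (x - y) ≤ ((Ideal.absNorm v.asIdeal : ℝ) ^ m)⁻¹ := by
  unfold cls at h
  rw [dif_pos hx, dif_pos hy, Ideal.Quotient.eq] at h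
  have h1 := (exists_class v m x hx).choose_spec
  have h2 := (exists_class v m y hy).choose_spec
  have h3 := sub_of_mem v m h
  set r := (exists_class v m x hx).choose
  set s := (exists_class v m y hy).choose
  have e : x - y = (x - r) + (((r - s : 𝓞 K) : K) + -(y - s)) := by
    push_cast
    ring
  rw [e]
  refine (fv_na v _ _).trans (max_le h1 ((fv_na v _ _).trans (max_le h3 ?_)))
  rw [map_neg_eq_map]
  exact h2

lemma card_cls (v : HeightOneSpectrum (𝓞 K)) (m : ℕ) :
    Nat.card (𝓞 K ⧸ v.asIdeal ^ m) = Ideal.absNorm v.asIdeal ^ m := by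
  rw [← map_pow]
  rfl

lemma finite_cls (v : HeightOneSpectrum (𝓞 K)) (m : ℕ) : Finite (𝓞 K ⧸ v.asIdeal ^ m) := by
  apply Nat.finite_of_card_ne_zero
  rw [card_cls]
  refine pow_ne_zero _ ?_
  have := NumberField.HeightOneSpectrum.one_lt_absNorm v
  omega

lemma pigeon {α β : Type*} [DecidableEq β] [Finite β] [Nonempty β] (G : Finset α) (f : α → β) :
    ∃ y, G.card ≤ (G.filter (fun x => f x = y)).card * Nat.card β := by
  classical
  have := Fintype.ofFinite β
  by_contra hcon
  push Not at hcon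
  have h1 : G.card = ∑ y : β, (G.filter (fun x => f x = y)).card :=
    Finset.card_eq_sum_card_fiberwise fun x _ => Finset.mem_coe.2 (Finset.mem_univ _)
  have h3 : ∑ y : β, (G.filter (fun x => f x = y)).card * Nat.card β < ∑ _y : β, G.card :=
    Finset.sum_lt_sum_of_nonempty Finset.univ_nonempty fun y _ => hcon y
  rw [← Finset.sum_mul, ← h1, Finset.sum_const, Finset.card_univ, smul_eq_mul, mul_comm,
    Nat.card_eq_fintype_card] at h3
  exact lt_irrefl _ h3

end Pool.Agent.J4.H51.El
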