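import Pool.Agent.J4.H51.El.Loc

set_option autoImplicit false
set_option linter.unusedSectionVars false

/-!
Points of `y² = x³ + a x + b` at a prime of good reduction.
-/

namespace Pool.Agent.J4.H51.El

open WeierstrassCurve NumberField IsDedekindDomain Height Pool.Agent.W231.V Pool.Agent.TH942

variable {K : Type} [Field K] [CharZero K] [DecidableEq K] (w : AbsoluteValue K ℝ)
  (hna : ∀ a b : K, w (a + b) ≤ max (w a) (w b)) {a b : K}

/-- affine points with integral coordinates which do not reduce to a point of order two -/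
def Good (P : SPt a b) : Prop :=
  ∃ (x y : K) (h : (sw a b).toAffine.Nonsingular x y), P = Affine.Point.some x y h ∧ w x ≤ 1 ∧
    w y = 1

lemma add_coords {x1 y1 x2 y2 : K} (h1 : (sw a b).toAffine.Nonsingular x1 y1)
    (h2 : (sw a b).toAffine.Nonsingular x2 y2) (hx : x1 ≠ x2) :
    ∃ h, Affine.Point.some x1 y1 h1 + Affine.Point.some x2 y2 h2 =
      (Affine.Point.some (((y1 - y2) / (x1 - x2)) ^ 2 - x1 - x2)
        (((y1 - y2) / (x1 - x2)) * (x2 - (((y1 - y2) / (x1 - x2)) ^ 2 - x1 - x2)) - y2) h :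
          SPt a b) := by
  have hx' : x1 - x2 ≠ 0 := sub_ne_zero.mpr hx
  have e := Affine.Point.add_of_X_ne (h₁ := h1) (h₂ := h2) hx
  have eX : (sw a b).toAffine.addX x1 x2 ((sw a b).toAffine.slope x1 x2 y1 y2) =
      ((y1 - y2) / (x1 - x2)) ^ 2 - x1 - x2 := by
    rw [Affine.slope_of_X_ne hx, Affine.addX]
    simp only [sw]
    ring
  have eY : (sw a b).toAffine.addY x1 x2 y1 ((sw a b).toAffine.slope x1 x2 y1 y2) =
      ((y1 - y2) / (x1 - x2)) * (x2 - (((y1 - y2) / (x1 - x2)) ^ 2 - x1 - x2)) - y2 := by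
    rw [Affine.addY, Affine.negAddY, Affine.negY, eX, Affine.slope_of_X_ne hx]
    simp only [sw]
    field_simp
    ring
  have hns := Affine.nonsingular_add h1 h2 (fun h => hx h.1)
  rw [eX, eY] at hns
  refine ⟨hns, ?_⟩
  rw [e]
  congr 1

include hna

lemma good_or (ha : w a ≤ 1) (hb : w b ≤ 1) (hd : w (4 * a ^ 3 + 27 * b ^ 2) = 1) {T : SPt a b}
    (hT : Good w T) (P : SPt a b) : Good w P ∨ Good w (P + T) := by
  obtain ⟨p, q, hpq, rfl, hp, hq⟩ := hT
  have e2 := sw_eqn.mp hpq.1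
  match P with
  | 0 =>
    right
    rw [zero_add]
    exact ⟨p, q, hpq, rfl, hp, hq⟩
  | .some x y h =>
    have e1 := sw_eqn.mp h.1
    by_cases hx : w x ≤ 1
    · have hy1 : w y ≤ 1 := by
        have h1 : w (y ^ 2) ≤ 1 := by
          rw [e1]
          exact add_le' w hna (add_le' w hna (pow_one w hna hx 3) (mul_one' w hna ha hx)) hb
        rw [map_pow] at h1
        by_contra hcon
        push Not at hcon
        have := one_lt_pow₀ hcon (show (2 : ℕ) ≠ 0 by norm_num)
        linarith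
      by_cases hy : w y < 1
      · right
        obtain ⟨h1, h2, h3⟩ := case_b w hna ha hb hp hq hd e1 e2 hx hy
        obtain ⟨h4, h5⟩ := add_coords h hpq h1
        rw [h5]
        exact ⟨_, _, h4, rfl, h2, h3⟩
      · left
        exact ⟨x, y, h, rfl, hx, le_antisymm hy1 (not_lt.1 hy)⟩
    · right
      push Not at hx
      obtain ⟨h1, h2, h3⟩ := case_a w hna ha hb hp hq e1 e2 hx
      obtain ⟨h4, h5⟩ := add_coords h hpq h1
      rw [h5]
      exact ⟨_, _, h4, rfl, h2, h3⟩

lemma diff {x y x' y' : K} (h : (sw a b).toAffine.Nonsingular x y)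
    (h' : (sw a b).toAffine.Nonsingular x' y') (hx : w x ≤ 1) (hx' : w x' ≤ 1)
    (hy' : w y' = 1) (h2 : w 2 = 1) {ρ : ℝ} (hρ0 : 0 < ρ) (hρ : ρ < 1) (hxx : w (x - x') ≤ ρ)
    (hyy : w (y - y') < 1)
    (hne : (Affine.Point.some x y h : SPt a b) ≠ Affine.Point.some x' y' h') (hD : 4 * a ^ 3 + 27 * b ^ 2 ≠ 0) :
    ∃ (X Y : K) (hXY : (sw a b).toAffine.Nonsingular X Y),
      (Affine.Point.some x y h : SPt a b) - Affine.Point.some x' y' h' =
        Affine.Point.some X Y hXY ∧ 1 ≤ w X * ρ ^ 2 := by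
  have e1 := sw_eqn.mp h.1
  have e2 := sw_eqn.mp h'.1
  have h2y : w (2 * y') = 1 := by rw [map_mul, h2, hy', one_mul]
  have hsum : w (y + y') = 1 := by
    have e : y + y' = 2 * y' + (y - y') := by ring
    rw [e, add_eq' w hna (by rw [h2y]; exact hyy), h2y]
  have hxne : x ≠ x' := by
    intro hxe
    subst hxe
    have h3 : y = y' ∨ y = -y' := by
      apply sq_eq_sq_iff_eq_or_eq_neg.mp
      rw [e1, e2]
    rcases h3 with h3 | h3
    · subst h3
      exact hne rfl
    · rw [h3, neg_add_cancel, map_zero] at hsum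
      exact zero_ne_one hsum
  have hneg : (sw a b).toAffine.Nonsingular x' (-y') := by
    apply sw_nonsing hD
    rw [← e2]; ring
  have hsub : (Affine.Point.some x y h : SPt a b) - Affine.Point.some x' y' h' =
      Affine.Point.some x y h + Affine.Point.some x' (-y') hneg := by
    rw [sub_eq_add_neg, sneg_mk h' hneg]
  obtain ⟨h4, h5⟩ := add_coords h hneg hxne
  refine ⟨_, _, h4, by rw [hsub, h5], ?_⟩
  have hxx0 : 0 < w (x - x') := w.pos (sub_ne_zero.2 hxne)
  have hρ2 : ρ ^ 2 < 1 := pow_lt_one₀ hρ0.le hρ (by norm_num)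
  have e3 : w (((y - -y') / (x - x')) ^ 2) = (w (x - x') ^ 2)⁻¹ := by
    rw [map_pow, map_div₀, sub_neg_eq_add, hsum, div_pow, one_pow, one_div]
  have hle : w (x - x') ^ 2 ≤ ρ ^ 2 := pow_le_pow_left₀ hxx0.le hxx 2
  have hbig : 1 < (w (x - x') ^ 2)⁻¹ := by
    rw [one_lt_inv₀ (by positivity)]
    linarith
  have e4 : ((y - -y') / (x - x')) ^ 2 - x - x' = ((y - -y') / (x - x')) ^ 2 + (-x - x') := by ring
  have h6 : w (-x - x') ≤ 1 := sub_le' w hna (by rw [map_neg_eq_map]; exact hx) hx'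
  rw [e4, add_eq' w hna (by rw [e3]; linarith), e3]
  rw [inv_mul_eq_div, le_div_iff₀ (by positivity), one_mul]
  exact hle

end Pool.Agent.J4.H51.El
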