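import Pool.Agent.W231.G.Cnt
import Pool.Agent.J4.H51.El.Pts
import Pool.Agent.J4.H51.El.Cls

set_option autoImplicit false
set_option linter.unusedSectionVars false

/-!
The truncated counting function of the origin.
-/

namespace Pool.Agent.J4.H51.El

open WeierstrassCurve NumberField IsDedekindDomain Height Pool.Agent.W231.V Pool.Agent.TH942
  Pool.Agent.W231.G Finset

variable {K : Type} [Field K] [NumberField K]

lemma two_ell_le {a b x y : K} (v : HeightOneSpectrum (𝓞 K)) (ha : fv v a ≤ 1) (hb : fv v b ≤ 1)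
    (e1 : y ^ 2 = x ^ 3 + a * x + b) (hx : 1 < fv v x) : 2 * ell v ≤ Real.log (fv v x) := by
  have hna := fv_na (K := K) v
  have hx0 : 0 < fv v x := by linarith
  have hyx : fv v y ^ 2 = fv v x ^ 3 := by
    rw [← map_pow, e1]
    have h1 : fv v (a * x + b) < fv v (x ^ 3) := by
      refine lt_of_le_of_lt (add_le' (fv v) hna (r := fv v x) ?_ (hb.trans hx.le)) ?_
      · rw [map_mul]
        nlinarith [(fv v).nonneg a]
      · rw [map_pow]
        have := pow_lt_pow_right₀ hx (show 1 < 3 by norm_num)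
        rwa [_root_.pow_one] at this
    rw [add_assoc, add_eq' (fv v) hna h1, map_pow]
  have hx' : x ≠ 0 := (fv v).pos_iff.1 hx0
  have hy' : y ≠ 0 := by
    rintro rfl
    rw [map_zero] at hyx
    have : 0 < fv v x ^ 3 := by positivity
    nlinarith
  obtain ⟨k, hk⟩ := fv_zpow v hx'
  obtain ⟨j, hj⟩ := fv_zpow v hy'
  have hN := one_lt_norm v
  have h3 : 2 * j = 3 * k := by
    rw [hk, hj, ← zpow_natCast, ← zpow_natCast, ← zpow_mul, ← zpow_mul] at hyx
    have := zpow_right_injective₀ (by linarith : (0 : ℝ) < (Ideal.absNorm v.asIdeal : ℝ)) hN.ne' hyx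
    push_cast at this
    linarith
  have h4 : 0 < k := by
    by_contra hcon
    push Not at hcon
    rw [hk] at hx
    have := zpow_le_one_of_nonpos₀ hN.le hcon
    linarith
  have h5 : 2 ≤ k := by omega
  have h6 : (2 : ℝ) ≤ (k : ℝ) := by exact_mod_cast h5
  rw [hk, Real.log_zpow]
  have := ell_pos v
  have e : Real.log (Ideal.absNorm v.asIdeal : ℝ) = ell v := rfl
  rw [e]
  nlinarith

/-- the truncated counting function of the origin, with the gain at one prime -/
lemma cnt_le (a b : K) : ∃ C : ℝ, ∀ (x y : K), y ^ 2 = x ^ 3 + a * x + b →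
    ∀ (v₀ : HeightOneSpectrum (𝓞 K)) (T : Finset (HeightOneSpectrum (𝓞 K))),
      (∀ v ∈ T, 1 < fv v x) →
      ∑ v ∈ T, ell v ≤ 1 / 2 * logHeight₁ x - 1 / 2 * Real.posLog (fv v₀ x) + ell v₀ + C := by
  classical
  obtain ⟨T0, hT0⟩ := exists_bad ({a, b} : Finset K)
  refine ⟨∑ v ∈ T0, ell v, fun x y e1 v₀ T hT => ?_⟩
  have hell : ∀ v : HeightOneSpectrum (𝓞 K), 0 ≤ ell v := fun v => (ell_pos v).le
  by_cases hx : x = 0
  · have hTe : T = ∅ := by
      rw [Finset.eq_empty_iff_forall_notMem]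
      intro v hv
      have := hT v hv
      rw [hx, map_zero] at this
      linarith
    rw [hTe, hx]
    have h1 : 0 ≤ ∑ v ∈ T0, ell v := Finset.sum_nonneg fun v _ => hell v
    simp only [Finset.sum_empty, map_zero, Real.posLog_zero, logHeight₁_zero]
    have := hell v₀
    linarith
  have hsub : T ⊆ T0 ∪ insert v₀ (T \ (insert v₀ T0)) := by
    intro v hv
    by_cases h1 : v ∈ T0
    · exact Finset.mem_union_left _ h1
    · refine Finset.mem_union_right _ ?_
      by_cases h2 : v = v₀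
      · rw [h2]; exact Finset.mem_insert_self _ _
      · refine Finset.mem_insert_of_mem (Finset.mem_sdiff.2 ⟨hv, ?_⟩)
        rw [Finset.mem_insert]
        tauto
  have hnm : v₀ ∉ T \ (insert v₀ T0) := by
    intro h
    exact (Finset.mem_sdiff.1 h).2 (Finset.mem_insert_self _ _)
  have h1 : ∑ v ∈ T, ell v ≤ ∑ v ∈ T0 ∪ insert v₀ (T \ (insert v₀ T0)), ell v :=
    Finset.sum_le_sum_of_subset_of_nonneg hsub fun v _ _ => hell v
  have h2 := Finset.sum_union_inter (s₁ := T0) (s₂ := insert v₀ (T \ (insert v₀ T0)))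
    (f := fun v => ell v)
  have h3 : 0 ≤ ∑ v ∈ T0 ∩ insert v₀ (T \ (insert v₀ T0)), ell v :=
    Finset.sum_nonneg fun v _ => hell v
  have h4 : ∑ v ∈ insert v₀ (T \ (insert v₀ T0)), ell v = ell v₀ + ∑ v ∈ T \ (insert v₀ T0), ell v :=
    Finset.sum_insert hnm
  have h5 : ∑ v ∈ T \ (insert v₀ T0), ell v ≤
      1 / 2 * ∑ v ∈ T \ (insert v₀ T0), Real.posLog (fv v x) := by
    rw [Finset.mul_sum]
    refine Finset.sum_le_sum fun v hv => ?_
    obtain ⟨hv1, hv2⟩ := Finset.mem_sdiff.1 hv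
    have hv3 : v ∉ T0 := fun h => hv2 (Finset.mem_insert_of_mem h)
    have ha := (hT0 v hv3 a (by simp)).2
    have hb := (hT0 v hv3 b (by simp)).2
    have h6 := two_ell_le v ha hb e1 (hT v hv1)
    have h7 : Real.log (fv v x) ≤ Real.posLog (fv v x) := le_max_right _ _
    linarith
  have h6 := sum_posLog_le hx (insert v₀ (T \ (insert v₀ T0)))
  rw [Finset.sum_insert hnm] at h6
  linarith

end Pool.Agent.J4.H51.El
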