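import Pool.Agent.W231.V.Quad
import Pool.Agent.TH942.Ner

set_option autoImplicit false
set_option linter.unusedSectionVars false

/-!
Points of `y² = x³ + a x + b` at a prime: the translate of a point, the difference of close points.
-/

namespace Pool.Agent.J4.H51.El

open WeierstrassCurve NumberField IsDedekindDomain Height Pool.Agent.W231.V Pool.Agent.TH942

section abs

variable {K : Type} [Field K] (w : AbsoluteValue K ℝ) (hna : ∀ a b : K, w (a + b) ≤ max (w a) (w b))

include hna

lemma add_le' {a b : K} {r : ℝ} (ha : w a ≤ r) (hb : w b ≤ r) : w (a + b) ≤ r :=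
  (hna a b).trans (max_le ha hb)

lemma sub_le' {a b : K} {r : ℝ} (ha : w a ≤ r) (hb : w b ≤ r) : w (a - b) ≤ r := by
  rw [sub_eq_add_neg]
  exact add_le' w hna ha (by rw [map_neg_eq_map]; exact hb)

lemma add_lt' {a b : K} {r : ℝ} (ha : w a < r) (hb : w b < r) : w (a + b) < r :=
  lt_of_le_of_lt (hna a b) (max_lt ha hb)

lemma add_eq' {a b : K} (h : w b < w a) : w (a + b) = w a := by
  refine le_antisymm (add_le' w hna le_rfl h.le) ?_
  by_contra hcon
  push Not at hcon
  have h1 : w a ≤ max (w (a + b)) (w (-b)) := by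
    have := hna (a + b) (-b)
    rwa [add_neg_cancel_right] at this
  rw [map_neg_eq_map] at h1
  exact absurd h1 (not_le.2 (max_lt hcon h))

lemma nat_le' (n : ℕ) : w (n : K) ≤ 1 := by
  induction n with
  | zero => simp
  | succ n ih =>
    push_cast
    exact add_le' w hna ih (by simp)

lemma mul_le' {a b : K} {r s : ℝ} (ha : w a ≤ r) (hb : w b ≤ s) (hr : 0 ≤ r) :
    w (a * b) ≤ r * s := by
  rw [map_mul]
  exact mul_le_mul ha hb (w.nonneg _) hr

lemma two_le' : w (2 : K) ≤ 1 := by exact_mod_cast nat_le' w hna 2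

lemma three_le' : w (3 : K) ≤ 1 := by exact_mod_cast nat_le' w hna 3

lemma pow_one {a : K} (ha : w a ≤ 1) (n : ℕ) : w (a ^ n) ≤ 1 := by
  rw [map_pow]
  exact pow_le_one₀ (w.nonneg _) ha

lemma mul_one' {a b : K} (ha : w a ≤ 1) (hb : w b ≤ 1) : w (a * b) ≤ 1 := by
  rw [map_mul]
  exact mul_le_one₀ ha (w.nonneg _) hb

/-- the translate by `(p, q)` of a point which is close to the point at infinity -/
lemma case_a {a b x y p q : K} (ha : w a ≤ 1) (hb : w b ≤ 1) (hp : w p ≤ 1) (hq : w q = 1)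
    (e1 : y ^ 2 = x ^ 3 + a * x + b) (e2 : q ^ 2 = p ^ 3 + a * p + b) (hx : 1 < w x) :
    x ≠ p ∧ w (((y - q) / (x - p)) ^ 2 - x - p) ≤ 1 ∧
      w (((y - q) / (x - p)) * (p - (((y - q) / (x - p)) ^ 2 - x - p)) - q) = 1 := by
  have hx0 : 0 < w x := by linarith
  have hyx : w y ^ 2 = w x ^ 3 := by
    rw [← map_pow, e1]
    have h1 : w (a * x + b) < w (x ^ 3) := by
      refine lt_of_le_of_lt (add_le' w hna (r := w x) ?_ (hb.trans hx.le)) ?_
      · rw [map_mul]
        nlinarith [w.nonneg a]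
      · rw [map_pow]
        have := pow_lt_pow_right₀ hx (show 1 < 3 by norm_num)
        rwa [_root_.pow_one] at this
    rw [add_assoc, add_eq' w hna h1, map_pow]
  set s : ℝ := w y / w x with hs
  have hsx : w x = s ^ 2 := by
    rw [hs, div_pow, hyx]
    field_simp
  have hsy : w y = s ^ 3 := by
    have h1 : s * w x = w y := by rw [hs]; field_simp
    rw [← h1, hsx]; ring
  have hs0 : 0 ≤ s := div_nonneg (w.nonneg _) hx0.le
  have hs1 : 1 < s := by
    by_contra hcon
    push Not at hcon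
    have : s ^ 2 ≤ 1 := pow_le_one₀ hs0 hcon
    linarith
  have p2 : 1 < s ^ 2 := one_lt_pow₀ hs1 (by norm_num)
  have p3 : s ^ 2 < s ^ 3 := pow_lt_pow_right₀ hs1 (by norm_num)
  have p4 : s ^ 3 < s ^ 4 := pow_lt_pow_right₀ hs1 (by norm_num)
  have p5 : s ^ 4 < s ^ 5 := pow_lt_pow_right₀ hs1 (by norm_num)
  have p6 : s ^ 5 < s ^ 6 := pow_lt_pow_right₀ hs1 (by norm_num)
  have hxp : w (x - p) = s ^ 2 := by
    rw [sub_eq_add_neg, add_eq' w hna (by rw [map_neg_eq_map]; linarith), hsx]
  have hne : x - p ≠ 0 := by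
    intro h
    rw [h, map_zero] at hxp
    linarith
  have h2 := two_le' w hna
  have h3 := three_le' w hna
  -- `M' = a (x + p) + 2 b + 3 x p² - p³`
  have hM' : w (a * (x + p) + 2 * b + 3 * x * p ^ 2 - p ^ 3) ≤ s ^ 2 := by
    refine sub_le' w hna (add_le' w hna (add_le' w hna ?_ ?_) ?_) ?_
    · have : w (x + p) ≤ s ^ 2 := add_le' w hna hsx.le (by linarith)
      have := mul_le' w hna ha this zero_le_one
      linarith
    · have := mul_one' w hna h2 hb
      linarith
    · have q1 := mul_le' w hna h3 hsx.le zero_le_one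
      have q2 := mul_le' w hna q1 (pow_one w hna hp 2) (by positivity)
      linarith
    · have := pow_one w hna hp 3
      linarith
  have hM : w (a * (x + p) + 2 * b + 3 * x * p ^ 2 - p ^ 3 - 2 * y * q) ≤ s ^ 3 := by
    refine sub_le' w hna (by linarith) ?_
    have q1 := mul_le' w hna h2 hsy.le zero_le_one
    have q2 := mul_le' w hna q1 hq.le (by positivity)
    linarith
  have hX : ((y - q) / (x - p)) ^ 2 - x - p - p =
      (a * (x + p) + 2 * b + 3 * x * p ^ 2 - p ^ 3 - 2 * y * q) / (x - p) ^ 2 := by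
    field_simp
    linear_combination e1 + e2
  have hXp : w (((y - q) / (x - p)) ^ 2 - x - p - p) ≤ 1 := by
    rw [hX, map_div₀, map_pow, hxp, div_le_one (by positivity)]
    have : (s ^ 2) ^ 2 = s ^ 4 := by ring
    rw [this]
    linarith
  refine ⟨sub_ne_zero.1 hne, ?_, ?_⟩
  · have := add_le' w hna hXp hp
    rwa [sub_add_cancel] at this
  · have hZ : ((y - q) / (x - p)) * (p - (((y - q) / (x - p)) ^ 2 - x - p)) - 2 * q =
        (2 * q * (a * x + b) - 2 * y * q ^ 2 -
          (y - q) * (a * (x + p) + 2 * b + 3 * x * p ^ 2 - p ^ 3) +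
          2 * q * (3 * x ^ 2 * p - 3 * x * p ^ 2 + p ^ 3)) / (x - p) ^ 3 := by
      have hX' : p - (((y - q) / (x - p)) ^ 2 - x - p) =
          -((a * (x + p) + 2 * b + 3 * x * p ^ 2 - p ^ 3 - 2 * y * q) / (x - p) ^ 2) := by
        rw [← hX]; ring
      rw [hX']
      field_simp
      linear_combination (2 * q) * e1
    have hZ1 : w (((y - q) / (x - p)) * (p - (((y - q) / (x - p)) ^ 2 - x - p)) - 2 * q) < 1 := by
      rw [hZ, map_div₀, map_pow, hxp, div_lt_one (by positivity)]
      have e6 : (s ^ 2) ^ 3 = s ^ 6 := by ring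
      rw [e6]
      refine lt_of_le_of_lt ?_ p6
      have h2q : w (2 * q) ≤ 1 := mul_one' w hna h2 hq.le
      refine add_le' w hna (sub_le' w hna (sub_le' w hna ?_ ?_) ?_) ?_
      · have q1 : w (a * x + b) ≤ s ^ 2 := by
          refine add_le' w hna ?_ (by linarith)
          have := mul_le' w hna ha hsx.le zero_le_one
          linarith
        have := mul_le' w hna h2q q1 zero_le_one
        linarith
      · have q1 := mul_le' w hna h2 hsy.le zero_le_one
        have q2 := mul_le' w hna q1 (pow_one w hna hq.le 2) (by positivity)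
        linarith
      · have q1 : w (y - q) ≤ s ^ 3 := sub_le' w hna hsy.le (by linarith)
        have q2 := mul_le' w hna q1 hM' (by positivity)
        have : s ^ 3 * s ^ 2 = s ^ 5 := by ring
        linarith
      · have q1 : w (3 * x ^ 2 * p - 3 * x * p ^ 2 + p ^ 3) ≤ s ^ 4 := by
          refine add_le' w hna (sub_le' w hna ?_ ?_) ?_
          · have r1 : w (x ^ 2) ≤ s ^ 4 := by
              rw [map_pow, hsx]
              exact le_of_eq (by ring)
            have r2 := mul_le' w hna h3 r1 zero_le_one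
            have r3 := mul_le' w hna r2 hp (by positivity)
            linarith
          · have r2 := mul_le' w hna h3 hsx.le zero_le_one
            have r3 := mul_le' w hna r2 (pow_one w hna hp 2) (by positivity)
            linarith
          · have := pow_one w hna hp 3
            linarith
        have := mul_le' w hna h2q q1 zero_le_one
        linarith
    have e : ((y - q) / (x - p)) * (p - (((y - q) / (x - p)) ^ 2 - x - p)) - q =
        q + (((y - q) / (x - p)) * (p - (((y - q) / (x - p)) ^ 2 - x - p)) - 2 * q) := by ring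
    rw [e, add_eq' w hna (by rw [hq]; exact hZ1), hq]

/-- the translate by `(p, q)` of a point which is close to a point of order two -/
lemma case_b {a b x y p q : K} (ha : w a ≤ 1) (hb : w b ≤ 1) (hp : w p ≤ 1) (hq : w q = 1)
    (hd : w (4 * a ^ 3 + 27 * b ^ 2) = 1)
    (e1 : y ^ 2 = x ^ 3 + a * x + b) (e2 : q ^ 2 = p ^ 3 + a * p + b) (hx : w x ≤ 1)
    (hy : w y < 1) :
    x ≠ p ∧ w (((y - q) / (x - p)) ^ 2 - x - p) ≤ 1 ∧
      w (((y - q) / (x - p)) * (p - (((y - q) / (x - p)) ^ 2 - x - p)) - q) = 1 := by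
  have h2 := two_le' w hna
  have h3 := three_le' w hna
  have hxp1 : w (x - p) ≤ 1 := sub_le' w hna hx hp
  have hxp : w (x - p) = 1 := by
    refine le_antisymm hxp1 ?_
    have h4 : w (y ^ 2 - q ^ 2) = 1 := by
      have e : y ^ 2 - q ^ 2 = -(q ^ 2 + -(y ^ 2)) := by ring
      have hq2 : w (q ^ 2) = 1 := by rw [map_pow, hq, one_pow]
      have hy2 : w (y ^ 2) < 1 := by
        rw [map_pow]
        exact pow_lt_one₀ (w.nonneg _) hy (by norm_num)
      rw [e, map_neg_eq_map, add_eq' w hna (by rw [map_neg_eq_map, hq2]; exact hy2), hq2]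
    have h5 : y ^ 2 - q ^ 2 = (x - p) * (x ^ 2 + x * p + p ^ 2 + a) := by
      linear_combination e1 - e2
    rw [h5, map_mul] at h4
    have h6 : w (x ^ 2 + x * p + p ^ 2 + a) ≤ 1 :=
      add_le' w hna (add_le' w hna (add_le' w hna (pow_one w hna hx 2) (mul_one' w hna hx hp))
        (pow_one w hna hp 2)) ha
    have := w.nonneg (x - p)
    nlinarith
  have hne : x - p ≠ 0 := by
    intro h
    rw [h, map_zero] at hxp
    linarith
  have hyq : w (y - q) ≤ 1 := sub_le' w hna hy.le hq.le
  have hL : w ((y - q) / (x - p)) ≤ 1 := by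
    rw [map_div₀, hxp, div_one]
    exact hyq
  have hX : w (((y - q) / (x - p)) ^ 2 - x - p) ≤ 1 :=
    sub_le' w hna (sub_le' w hna (pow_one w hna hL 2) hx) hp
  -- the derivative
  have hf : w (3 * x ^ 2 + a) = 1 := by
    have hf1 : w (3 * x ^ 2 + a) ≤ 1 := add_le' w hna (mul_one' w hna h3 (pow_one w hna hx 2)) ha
    refine le_antisymm hf1 ?_
    have e : (6 * a * x ^ 2 - 9 * b * x + 4 * a ^ 2) * (3 * x ^ 2 + a) =
        (4 * a ^ 3 + 27 * b ^ 2) + -((27 * b - 18 * a * x) * y ^ 2) := by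
      linear_combination (27 * b - 18 * a * x) * e1
    have hnat : ∀ n : ℕ, w (n : K) ≤ 1 := nat_le' w hna
    have h6 : w (6 * a * x ^ 2 - 9 * b * x + 4 * a ^ 2) ≤ 1 := by
      have n6 : w (6 : K) ≤ 1 := by exact_mod_cast hnat 6
      have n9 : w (9 : K) ≤ 1 := by exact_mod_cast hnat 9
      have n4 : w (4 : K) ≤ 1 := by exact_mod_cast hnat 4
      exact add_le' w hna (sub_le' w hna (mul_one' w hna (mul_one' w hna n6 ha) (pow_one w hna hx 2))
        (mul_one' w hna (mul_one' w hna n9 hb) hx)) (mul_one' w hna n4 (pow_one w hna ha 2))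
    have h7 : w ((27 * b - 18 * a * x) * y ^ 2) < 1 := by
      have n27 : w (27 : K) ≤ 1 := by exact_mod_cast hnat 27
      have n18 : w (18 : K) ≤ 1 := by exact_mod_cast hnat 18
      have r1 : w (27 * b - 18 * a * x) ≤ 1 := sub_le' w hna (mul_one' w hna n27 hb)
        (mul_one' w hna (mul_one' w hna n18 ha) hx)
      have r2 : w (y ^ 2) < 1 := by
        rw [map_pow]
        exact pow_lt_one₀ (w.nonneg _) hy (by norm_num)
      rw [map_mul]
      exact lt_of_le_of_lt (mul_le_of_le_one_left (w.nonneg _) r1) r2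
    have h8 : w ((6 * a * x ^ 2 - 9 * b * x + 4 * a ^ 2) * (3 * x ^ 2 + a)) = 1 := by
      rw [e, add_eq' w hna (by rw [map_neg_eq_map, hd]; exact h7), hd]
    rw [map_mul] at h8
    have := w.nonneg (3 * x ^ 2 + a)
    nlinarith
  refine ⟨sub_ne_zero.1 hne, hX, ?_⟩
  have hY : ((y - q) / (x - p)) * (p - (((y - q) / (x - p)) ^ 2 - x - p)) - q =
      (q * (p - x) * (3 * x ^ 2 + a) +
        y * (-(a * (x + p) + 2 * b + 3 * x * p ^ 2 - p ^ 3 - 2 * y * q) - 2 * q ^ 2 + 2 * q * y)) /
        (x - p) ^ 3 := by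
    have hX1 : ((y - q) / (x - p)) ^ 2 - x - p - p =
        (a * (x + p) + 2 * b + 3 * x * p ^ 2 - p ^ 3 - 2 * y * q) / (x - p) ^ 2 := by
      field_simp
      linear_combination e1 + e2
    have hX' : p - (((y - q) / (x - p)) ^ 2 - x - p) =
        -((a * (x + p) + 2 * b + 3 * x * p ^ 2 - p ^ 3 - 2 * y * q) / (x - p) ^ 2) := by
      rw [← hX1]; ring
    rw [hX']
    field_simp
    linear_combination (-2 * q) * e1
  rw [hY, map_div₀, map_pow, hxp, one_pow, div_one]
  have r1 : w (q * (p - x) * (3 * x ^ 2 + a)) = 1 := by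
    rw [map_mul, map_mul, hq, hf]
    have : p - x = -(x - p) := by ring
    rw [this, map_neg_eq_map, hxp]
    norm_num
  have r2 : w (y * (-(a * (x + p) + 2 * b + 3 * x * p ^ 2 - p ^ 3 - 2 * y * q) - 2 * q ^ 2 +
      2 * q * y)) < 1 := by
    have r3 : w (-(a * (x + p) + 2 * b + 3 * x * p ^ 2 - p ^ 3 - 2 * y * q) - 2 * q ^ 2 +
        2 * q * y) ≤ 1 := by
      refine add_le' w hna (sub_le' w hna ?_ (mul_one' w hna h2 (pow_one w hna hq.le 2)))
        (mul_one' w hna (mul_one' w hna h2 hq.le) hy.le)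
      rw [map_neg_eq_map]
      exact sub_le' w hna (sub_le' w hna (add_le' w hna (add_le' w hna (mul_one' w hna ha
        (add_le' w hna hx hp)) (mul_one' w hna h2 hb)) (mul_one' w hna (mul_one' w hna h3 hx)
        (pow_one w hna hp 2))) (pow_one w hna hp 3)) (mul_one' w hna (mul_one' w hna h2 hy.le) hq.le)
    rw [map_mul]
    exact lt_of_le_of_lt (mul_le_of_le_one_right (w.nonneg _) r3) hy
  rw [add_eq' w hna (by rw [r1]; exact r2), r1]

end abs

end Pool.Agent.J4.H51.El
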