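import Pool.Agent.J4.H51.El.Cnt

set_option autoImplicit false
set_option linter.unusedSectionVars false

/-!
Many points of an elliptic curve at which the truncated counting function is small.
-/

namespace Pool.Agent.J4.H51.El

open WeierstrassCurve NumberField IsDedekindDomain Height Pool.Agent.W231.V Pool.Agent.TH942
  Pool.Agent.W231.G Finset Filter Topology

lemma exists_over (k : Type) [Field k] [NumberField k] {p : ℕ} (hp : p.Prime) :
    ∃ P : HeightOneSpectrum (𝓞 k), (p : 𝓞 k) ∈ P.asIdeal := by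
  have hnu : ¬ IsUnit (p : 𝓞 k) := by
    intro h
    have h1 := h.map (Algebra.norm ℤ)
    have h2 : Algebra.norm ℤ (p : 𝓞 k) = (p : ℤ) ^ Module.finrank ℤ (𝓞 k) := by
      have h5 := Algebra.norm_algebraMap (S := 𝓞 k) (p : ℤ)
      rw [← h5]
      congr 1
      simp
    rw [h2, isUnit_pow_iff (by rw [RingOfIntegers.rank]; exact Module.finrank_pos.ne')] at h1
    exact (Nat.prime_iff_prime_int.1 hp).not_isUnit h1
  obtain ⟨M, hM, hpM⟩ := exists_max_ideal_of_mem_nonunits (mem_nonunits_iff.2 hnu)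
  refine ⟨⟨M, hM.isPrime, fun h0 => ?_⟩, hpM⟩
  rw [h0, Ideal.mem_bot] at hpM
  exact hp.ne_zero (by exact_mod_cast hpM)

lemma inf_primes (k : Type) [Field k] [NumberField k] : Infinite (HeightOneSpectrum (𝓞 k)) := by
  choose f hf using fun p : Nat.Primes => exists_over k p.2
  refine Infinite.of_injective f fun p q hpq => ?_
  by_contra hne
  have hne' : (p : ℕ) ≠ q := fun h => hne (Subtype.ext h)
  have hc : Nat.Coprime p q := (Nat.coprime_primes p.2 q.2).2 hne'
  have h1 := hf p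
  have h2 := hf q
  rw [← hpq] at h2
  have h3 : (1 : 𝓞 k) ∈ (f p).asIdeal := by
    have hb := Nat.gcd_eq_gcd_ab (p : ℕ) (q : ℕ)
    rw [hc] at hb
    have hb' : (1 : 𝓞 k) = (((p : ℕ) : ℤ) : 𝓞 k) * ((Nat.gcdA p q : ℤ) : 𝓞 k) +
        (((q : ℕ) : ℤ) : 𝓞 k) * ((Nat.gcdB p q : ℤ) : 𝓞 k) := by
      rw [← Int.cast_mul, ← Int.cast_mul, ← Int.cast_add, ← hb]
      simp
    rw [hb']
    refine add_mem (Ideal.mul_mem_right _ _ ?_) (Ideal.mul_mem_right _ _ ?_)
    · rw [Int.cast_natCast]; exact h1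
    · rw [Int.cast_natCast]; exact h2
  exact (f p).isPrime.ne_top ((Ideal.eq_top_iff_one _).2 h3)

variable {K : Type} [Field K] [NumberField K] [DecidableEq K]

/-- the affine coordinates (zero for the point at infinity) -/
def co {a b : K} : SPt a b → K × K
  | 0 => (0, 0)
  | .some x y _ => (x, y)

/-- a point which is not of order two -/
lemma exists_tau {a b : K} (hD : 4 * a ^ 3 + 27 * b ^ 2 ≠ 0)
    (hr : 0 < Module.finrank ℤ (SPt a b)) :
    ∃ (p q : K) (h : (sw a b).toAffine.Nonsingular p q), q ≠ 0 := by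
  by_contra hcon
  push Not at hcon
  have h2 : ∀ P : SPt a b, (2 : ℤ) • P = 0 := by
    intro P
    match P with
    | 0 => simp
    | .some x y h =>
      have hy := hcon x y h
      subst hy
      rw [two_smul]
      apply Affine.Point.add_self_of_Y_eq
      simp [Affine.negY, sw]
  have h3 : Module.rank ℤ (SPt a b) = 0 := rank_eq_zero_iff.2 fun P => ⟨2, two_ne_zero, h2 P⟩
  have h4 : Module.finrank ℤ (SPt a b) = 0 := by
    rw [Module.finrank, h3]
    simp
  omega

/-- the point `P` reduces to the origin at the prime `v` -/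
def Meets {a b : K} (v : HeightOneSpectrum (𝓞 K)) (P : SPt a b) : Prop :=
  ∃ (x y : K) (h : (sw a b).toAffine.Nonsingular x y), P = Affine.Point.some x y h ∧ 1 < fv v x

lemma sht_some' {a b x y : K} (h : (sw a b).toAffine.Nonsingular x y) :
    sht (Affine.Point.some x y h : SPt a b) = logHeight₁ x := by
  rw [sht, Affine.Point.xRep_some, logHeight₁_eq_logHeight]

/-- the primes at which a point meets the origin -/
lemma meets_cnt (a b : K) : ∃ C : ℝ, 0 ≤ C ∧ ∀ (P : SPt a b),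
    {v : HeightOneSpectrum (𝓞 K) | Meets v P}.Finite ∧
    ∀ (v₀ : HeightOneSpectrum (𝓞 K)) (T : Finset (HeightOneSpectrum (𝓞 K))), (∀ v ∈ T, Meets v P) →
      ∑ v ∈ T, ell v ≤ 1 / 2 * sht P + ell v₀ + C ∧
      ∀ (x y : K) (h : (sw a b).toAffine.Nonsingular x y), P = Affine.Point.some x y h →
        ∑ v ∈ T, ell v ≤ 1 / 2 * sht P - 1 / 2 * Real.posLog (fv v₀ x) + ell v₀ + C := by
  obtain ⟨C, hC⟩ := cnt_le a b
  refine ⟨max C 0, le_max_right _ _, fun P => ?_⟩
  match P with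
  | 0 =>
    have hno : ∀ v : HeightOneSpectrum (𝓞 K), ¬ Meets v (0 : SPt a b) := by
      rintro v ⟨x, y, h, h1, -⟩
      exact absurd h1.symm (Affine.Point.some_ne_zero h)
    refine ⟨by simp [hno], fun v₀ T hT => ?_⟩
    have hTe : T = ∅ := by
      rw [Finset.eq_empty_iff_forall_notMem]
      intro v hv
      exact hno v (hT v hv)
    refine ⟨?_, fun x y h h1 => absurd h1.symm (Affine.Point.some_ne_zero h)⟩
    rw [hTe, Finset.sum_empty, sht_zero]
    have := ell_pos v₀
    have := le_max_right C 0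
    linarith
  | .some x y h =>
    have e1 := sw_eqn.mp h.1
    have hM : ∀ v : HeightOneSpectrum (𝓞 K), Meets v (Affine.Point.some x y h : SPt a b) →
        1 < fv v x := by
      rintro v ⟨x', y', h', h1, h2⟩
      rw [Affine.Point.some.injEq] at h1
      rw [h1.1]
      exact h2
    refine ⟨?_, fun v₀ T hT => ?_⟩
    · by_cases hx : x = 0
      · refine Set.Finite.subset Set.finite_empty fun v hv => ?_
        have := hM v hv
        rw [hx, map_zero] at this
        linarith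
      · exact (fv_support_finite hx).subset fun v hv => (hM v hv).ne'
    · have h3 := hC x y e1 v₀ T fun v hv => hM v (hT v hv)
      have h4 : 0 ≤ Real.posLog (fv v₀ x) := Real.posLog_nonneg
      have h5 := le_max_left C 0
      refine ⟨?_, fun x' y' h' h1 => ?_⟩
      · rw [sht_some']
        linarith
      · rw [Affine.Point.some.injEq] at h1
        rw [sht_some', ← h1.1]
        linarith

theorem main {a b : K} (hD : 4 * a ^ 3 + 27 * b ^ 2 ≠ 0) (q : ℕ) (T : Fin (q + 1) → SPt a b) :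
    ∃ c C B₀ : ℝ, 0 < c ∧ ∀ B Δ : ℝ, B₀ ≤ B → 0 ≤ Δ → ∃ Ps : Finset (SPt a b),
      c * B ^ ((Module.finrank ℤ (SPt a b) : ℝ) / 2) * Real.exp (-Δ) - C ≤ Ps.card ∧
      ∀ P ∈ Ps, (∀ j, P ≠ T j) ∧ ∑ j, sht (P - T j) / 2 ≤ B ∧
        {v : HeightOneSpectrum (𝓞 K) | ∃ j, Meets v (P - T j)}.Finite ∧
        ∀ U : Finset (HeightOneSpectrum (𝓞 K)), (∀ v ∈ U, ∃ j, Meets v (P - T j)) →
          ∑ v ∈ U, ell v ≤ ∑ j, sht (P - T j) / 2 - Δ := by
  classical
  set r : ℕ := Module.finrank ℤ (SPt a b) with hr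
  rcases Nat.eq_zero_or_pos r with hr0 | hrpos
  · refine ⟨1, 1, 0, one_pos, fun B Δ hB hΔ => ⟨∅, ?_, by simp⟩⟩
    rw [hr0]
    have : Real.exp (-Δ) ≤ 1 := Real.exp_le_one_iff.2 (by linarith)
    simp
    linarith
  obtain ⟨p, q', hpq, hq'⟩ := exists_tau hD hrpos
  set τ : SPt a b := Affine.Point.some p q' hpq with hτ
  -- the prime
  obtain ⟨v, hv⟩ : ∃ v : HeightOneSpectrum (𝓞 K),
      fv v a ≤ 1 ∧ fv v b ≤ 1 ∧ fv v (2 : K) = 1 ∧ fv v (4 * a ^ 3 + 27 * b ^ 2) = 1 ∧ fv v p ≤ 1 ∧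
        fv v q' = 1 := by
    obtain ⟨T0, hT0⟩ := exists_bad ({a, b, 2, 4 * a ^ 3 + 27 * b ^ 2, p, q'} : Finset K)
    have := inf_primes K
    obtain ⟨v, hv⟩ := Infinite.exists_notMem_finset T0
    refine ⟨v, (hT0 v hv _ (by simp)).2, (hT0 v hv _ (by simp)).2,
      (hT0 v hv _ (by simp)).1 two_ne_zero, (hT0 v hv _ (by simp)).1 hD,
      (hT0 v hv _ (by simp)).2, (hT0 v hv _ (by simp)).1 hq'⟩
  obtain ⟨va, vb, v2, vD, vp, vq⟩ := hv
  have hna := fv_na (K := K) v
  have hτg : Good (fv v) τ := ⟨p, q', hpq, rfl, vp, vq⟩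
  set N : ℝ := (Ideal.absNorm v.asIdeal : ℝ) with hN
  have hN1 : 1 < N := one_lt_norm v
  have hell : ell v = Real.log N := rfl
  have hellpos := ell_pos v
  -- heights
  obtain ⟨κ, hκ, hgrow⟩ := neron_growth hD
  obtain ⟨C₁, hC₁, hpar⟩ := spar_law hD
  have hadd : ∀ P Q : SPt a b, sht (P + Q) ≤ 2 * sht P + 2 * sht Q + C₁ := by
    intro P Q
    have h1 := (abs_le.1 (hpar P Q)).2
    have h2 := sht_nonneg (P - Q)
    linarith
  have hsub : ∀ P Q : SPt a b, sht (P - Q) ≤ 2 * sht P + 2 * sht Q + C₁ := by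
    intro P Q
    have h1 := (abs_le.1 (hpar P Q)).2
    have h2 := sht_nonneg (P + Q)
    linarith
  obtain ⟨C₂, hC₂, hmeet⟩ := meets_cnt a b
  have hgrow' : ∀ᶠ B : ℝ in atTop, κ / 2 * B ^ ((r : ℝ) / 2) ≤ (Nat.card {P : SPt a b // sht P ≤ B} : ℝ) := by
    have h1 := hgrow.eventually (eventually_gt_nhds (show κ / 2 < κ by linarith))
    filter_upwards [h1, eventually_gt_atTop (0 : ℝ)] with B h2 h3
    rw [lt_div_iff₀ (Real.rpow_pos_of_pos h3 _)] at h2
    exact h2.le
  obtain ⟨B₁, hB₁⟩ := eventually_atTop.1 hgrow'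
  -- the constants
  set α : ℝ := 8 * (q + 1) with hα
  have hαpos : 0 < α := by positivity
  set β : ℝ := ∑ j, (sht (T 0 - T j) + C₁) + (q + 1) * (8 * sht τ + 5 * C₁) with hβ
  set C₃ : ℝ := (q + 1) * (ell v + C₂) with hC₃
  have hC₃0 : 0 ≤ C₃ := by positivity
  have hβ0 : 0 ≤ β := by
    refine add_nonneg (Finset.sum_nonneg fun j _ => add_nonneg (sht_nonneg _) hC₁) ?_
    have := sht_nonneg τ
    positivity
  refine ⟨κ / 4 * (1 / (2 * α)) ^ ((r : ℝ) / 2) * Real.exp (-(C₃ + 3 * ell v)), q + 2,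
    max (2 * β) (max (2 * α * B₁) 1), by positivity, fun B Δ hB hΔ => ?_⟩
  have hBβ : 2 * β ≤ B := (le_max_left _ _).trans hB
  have hBB₁ : 2 * α * B₁ ≤ B := (le_max_left _ _).trans ((le_max_right _ _).trans hB)
  have hB1 : 1 ≤ B := (le_max_right _ _).trans ((le_max_right _ _).trans hB)
  set b₁ : ℝ := (B - β) / α with hb₁
  have hb₁B : B / (2 * α) ≤ b₁ := by
    rw [hb₁, div_le_div_iff₀ (by positivity) hαpos]
    nlinarith
  have hb₁B₁ : B₁ ≤ b₁ := by
    refine le_trans ?_ hb₁B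
    rw [le_div_iff₀ (by positivity)]
    linarith
  have hb₁pos : 0 < b₁ := lt_of_lt_of_le (by positivity) hb₁B
  have hcard := hB₁ b₁ hb₁B₁
  have hfinS : {P : SPt a b | sht P ≤ b₁}.Finite := sfinite_ht b₁
  set Sf : Finset (SPt a b) := hfinS.toFinset with hSf
  have hSfcard : (Nat.card {P : SPt a b // sht P ≤ b₁} : ℝ) = Sf.card := by
    have : Nat.card {P : SPt a b // sht P ≤ b₁} = Sf.card := by
      rw [hSf, ← Set.ncard_eq_toFinset_card _ hfinS]
      rfl
    exact_mod_cast this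
  rw [hSfcard] at hcard
  -- the good points
  obtain ⟨Gf, hG1, hG2⟩ : ∃ Gf : Finset (SPt a b), (Sf.card : ℝ) / 2 ≤ Gf.card ∧
      ∀ P ∈ Gf, Good (fv v) P ∧ sht P ≤ 2 * b₁ + 2 * sht τ + C₁ := by
    set S1 := Sf.filter fun P => Good (fv v) P with hS1
    set S2 := Sf.filter fun P => ¬ Good (fv v) P with hS2
    have hs : S1.card + S2.card = Sf.card := Finset.card_filter_add_card_filter_not _
    have hs' : (S1.card : ℝ) + S2.card = Sf.card := by exact_mod_cast hs
    have hτ0 := sht_nonneg τ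
    by_cases hc : (Sf.card : ℝ) / 2 ≤ S1.card
    · refine ⟨S1, hc, fun P hP => ?_⟩
      obtain ⟨h1, h2⟩ := Finset.mem_filter.1 hP
      have h3 : sht P ≤ b₁ := by
        have := (Set.Finite.mem_toFinset hfinS).1 h1
        exact this
      exact ⟨h2, by linarith⟩
    · refine ⟨S2.image (fun P => P + τ), ?_, fun P hP => ?_⟩
      · rw [Finset.card_image_of_injective _ (add_left_injective τ)]
        push Not at hc
        linarith
      · obtain ⟨Q, hQ, rfl⟩ := Finset.mem_image.1 hP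
        obtain ⟨h1, h2⟩ := Finset.mem_filter.1 hQ
        have h3 : sht Q ≤ b₁ := by
          have := (Set.Finite.mem_toFinset hfinS).1 h1
          exact this
        refine ⟨(good_or (fv v) hna va vb vD hτg Q).resolve_left h2, ?_⟩
        have := hadd Q τ
        linarith
  -- the exponent
  set m : ℕ := ⌈(Δ + C₃) / ell v⌉₊ + 1 with hm
  have hm1 : 1 ≤ m := by omega
  have hmΔ : Δ + C₃ ≤ m * ell v := by
    have h1 := Nat.le_ceil ((Δ + C₃) / ell v)
    rw [div_le_iff₀ hellpos] at h1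
    have h2 : (m : ℝ) = (⌈(Δ + C₃) / ell v⌉₊ : ℝ) + 1 := by rw [hm]; push_cast; rfl
    rw [h2]
    nlinarith
  have hmΔ' : (m + 1 : ℝ) * ell v ≤ Δ + C₃ + 3 * ell v := by
    have h1 := Nat.ceil_lt_add_one (show 0 ≤ (Δ + C₃) / ell v by positivity)
    have h2 : (m : ℝ) = (⌈(Δ + C₃) / ell v⌉₊ : ℝ) + 1 := by rw [hm]; push_cast; rfl
    have h3 : ((Δ + C₃) / ell v) * ell v = Δ + C₃ := by field_simp
    rw [h2]
    nlinarith
  -- the pigeonhole principle
  have hf1 := finite_cls v m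
  have hf2 := finite_cls v 1
  obtain ⟨cl, hcl⟩ := pigeon Gf (fun P => (cls v m (co P).1, cls v 1 (co P).2))
  set Ff := Gf.filter fun P => (cls v m (co P).1, cls v 1 (co P).2) = cl with hFf
  have hcardcl : (Nat.card ((𝓞 K ⧸ v.asIdeal ^ m) × (𝓞 K ⧸ v.asIdeal ^ 1)) : ℝ) = N ^ (m + 1) := by
    rw [Nat.card_prod, card_cls, card_cls]
    push_cast
    ring
  have hFG : (Gf.card : ℝ) ≤ Ff.card * N ^ (m + 1) := by
    rw [← hcardcl]
    exact_mod_cast hcl
  have hNm : N ^ (m + 1) ≤ Real.exp (Δ + C₃ + 3 * ell v) := by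
    have e : N ^ (m + 1) = Real.exp ((m + 1 : ℝ) * ell v) := by
      rw [hell, mul_comm, Real.exp_mul, Real.exp_log (by linarith)]
      exact_mod_cast (Real.rpow_natCast N (m + 1)).symm
    rw [e]
    exact Real.exp_le_exp.2 hmΔ'
  have hFbig : κ / 4 * (1 / (2 * α)) ^ ((r : ℝ) / 2) * Real.exp (-(C₃ + 3 * ell v)) *
      B ^ ((r : ℝ) / 2) * Real.exp (-Δ) ≤ Ff.card := by
    have h1 : κ / 4 * b₁ ^ ((r : ℝ) / 2) ≤ Gf.card := by linarith
    have h2 : (1 / (2 * α)) ^ ((r : ℝ) / 2) * B ^ ((r : ℝ) / 2) ≤ b₁ ^ ((r : ℝ) / 2) := by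
      rw [← Real.mul_rpow (by positivity) (by linarith)]
      refine Real.rpow_le_rpow (by positivity) ?_ (by positivity)
      rw [one_div, inv_mul_eq_div]
      exact hb₁B
    have h3 : κ / 4 * ((1 / (2 * α)) ^ ((r : ℝ) / 2) * B ^ ((r : ℝ) / 2)) ≤
        Ff.card * Real.exp (Δ + C₃ + 3 * ell v) := by
      calc _ ≤ κ / 4 * b₁ ^ ((r : ℝ) / 2) := mul_le_mul_of_nonneg_left h2 (by positivity)
        _ ≤ Gf.card := h1
        _ ≤ Ff.card * N ^ (m + 1) := hFG
        _ ≤ _ := mul_le_mul_of_nonneg_left hNm (Nat.cast_nonneg _)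
    have h4 : Real.exp (-(C₃ + 3 * ell v)) * Real.exp (-Δ) * Real.exp (Δ + C₃ + 3 * ell v) = 1 := by
      rw [← Real.exp_add, ← Real.exp_add]
      have : -(C₃ + 3 * ell v) + -Δ + (Δ + C₃ + 3 * ell v) = 0 := by ring
      rw [this, Real.exp_zero]
    have h5 : 0 < Real.exp (-(C₃ + 3 * ell v)) * Real.exp (-Δ) := by positivity
    calc _ = (κ / 4 * ((1 / (2 * α)) ^ ((r : ℝ) / 2) * B ^ ((r : ℝ) / 2))) *
          (Real.exp (-(C₃ + 3 * ell v)) * Real.exp (-Δ)) := by ring
      _ ≤ (Ff.card * Real.exp (Δ + C₃ + 3 * ell v)) *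
          (Real.exp (-(C₃ + 3 * ell v)) * Real.exp (-Δ)) := mul_le_mul_of_nonneg_right h3 h5.le
      _ = Ff.card * (Real.exp (-(C₃ + 3 * ell v)) * Real.exp (-Δ) *
          Real.exp (Δ + C₃ + 3 * ell v)) := by ring
      _ = Ff.card := by rw [h4, mul_one]
  rcases Finset.eq_empty_or_nonempty Ff with hFe | hFne
  · refine ⟨∅, ?_, by simp⟩
    rw [hFe, Finset.card_empty] at hFbig
    simp only [Finset.card_empty, Nat.cast_zero] at hFbig ⊢
    have : (0 : ℝ) ≤ q := Nat.cast_nonneg q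
    linarith
  obtain ⟨P₀, hP₀⟩ := hFne
  -- the differences
  have hρ0 : 0 < (N ^ m)⁻¹ := by positivity
  have hρ1 : (N ^ m)⁻¹ < 1 := inv_lt_one_of_one_lt₀ (one_lt_pow₀ hN1 (by omega))
  have hdiff : ∀ P ∈ Ff, P ≠ P₀ → ∃ (X Y : K) (hXY : (sw a b).toAffine.Nonsingular X Y),
      P - P₀ = Affine.Point.some X Y hXY ∧ 2 * (m * ell v) ≤ Real.posLog (fv v X) := by
    intro P hP hne
    obtain ⟨g1, g2⟩ := Finset.mem_filter.1 hP
    obtain ⟨g3, g4⟩ := Finset.mem_filter.1 hP₀
    obtain ⟨x, y, h, hPe, hx, hy⟩ := (hG2 P g1).1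
    obtain ⟨x', y', h', hPe', hx', hy'⟩ := (hG2 P₀ g3).1
    have hcc : (cls v m (co P).1, cls v 1 (co P).2) = (cls v m (co P₀).1, cls v 1 (co P₀).2) := by
      rw [g2, g4]
    rw [hPe, hPe', Prod.ext_iff] at hcc
    have e1 : cls v m x = cls v m x' := hcc.1
    have e2 : cls v 1 y = cls v 1 y' := hcc.2
    have f1 := cls_eq v m hx hx' e1
    have f2 := cls_eq v 1 hy.le hy'.le e2
    have f3 : fv v (y - y') < 1 := lt_of_le_of_lt f2 (by
      rw [_root_.pow_one]
      exact inv_lt_one_of_one_lt₀ hN1)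
    have hne' : (Affine.Point.some x y h : SPt a b) ≠ Affine.Point.some x' y' h' := by
      rw [← hPe, ← hPe']; exact hne
    obtain ⟨X, Y, hXY, k1, k2⟩ := diff (fv v) hna h h' hx hx' hy' v2 hρ0 hρ1 f1 f3 hne' hD
    refine ⟨X, Y, hXY, by rw [hPe, hPe']; exact k1, ?_⟩
    have k3 : N ^ (2 * m) ≤ fv v X := by
      have : N ^ (2 * m) * ((N ^ m)⁻¹) ^ 2 = 1 := by
        rw [inv_pow, ← pow_mul, mul_comm 2 m]
        field_simp
      have k4 : 0 < ((N ^ m)⁻¹) ^ 2 := by positivity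
      rw [← this] at k2
      exact le_of_mul_le_mul_right k2 k4
    have k4 : Real.log (N ^ (2 * m)) ≤ Real.log (fv v X) := Real.log_le_log (by positivity) k3
    rw [Real.log_pow] at k4
    have k5 : Real.log (fv v X) ≤ Real.posLog (fv v X) := le_max_right _ _
    push_cast at k4
    rw [hell]
    linarith
  -- the final set
  set Bad : Finset (SPt a b) := Finset.univ.image T with hBad
  set Ps : Finset (SPt a b) := ((Ff.erase P₀).image fun P => P - P₀ + T 0) \ Bad with hPs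
  refine ⟨Ps, ?_, fun P hP => ?_⟩
  · have hinj : Function.Injective fun P : SPt a b => P - P₀ + T 0 := by
      intro P Q h
      have h1 : P - P₀ + T 0 = Q - P₀ + T 0 := h
      exact sub_left_injective (add_right_cancel h1)
    have h1 : ((Ff.erase P₀).image fun P => P - P₀ + T 0).card = Ff.card - 1 := by
      rw [Finset.card_image_of_injective _ hinj, Finset.card_erase_of_mem hP₀]
    have h2 : Bad.card ≤ q + 1 := by
      refine Finset.card_image_le.trans ?_
      simp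
    have h3 : Ff.card - 1 - Bad.card ≤ Ps.card := by
      rw [← h1]
      exact Finset.le_card_sdiff Bad ((Ff.erase P₀).image fun P => P - P₀ + T 0)
    have h4 : Ff.card ≤ Ps.card + (q + 2) := by omega
    have h5 : (Ff.card : ℝ) ≤ Ps.card + (q + 2) := by exact_mod_cast h4
    linarith
  · obtain ⟨h1, h2⟩ := Finset.mem_sdiff.1 hP
    obtain ⟨P', hP', rfl⟩ := Finset.mem_image.1 h1
    obtain ⟨hne, hP'F⟩ := Finset.mem_erase.1 hP'
    obtain ⟨X, Y, hXY, hR, hgain⟩ := hdiff P' hP'F hne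
    have hG := hG2 P' (Finset.mem_filter.1 hP'F).1
    have hG0 := hG2 P₀ (Finset.mem_filter.1 hP₀).1
    have hR0 : P' - P₀ + T 0 - T 0 = P' - P₀ := by abel
    refine ⟨fun j hj => h2 ?_, ?_, ?_, fun U hU => ?_⟩
    · rw [hj]
      exact Finset.mem_image.2 ⟨j, Finset.mem_univ _, rfl⟩
    · -- the height
      have hRh : sht (P' - P₀) ≤ 8 * b₁ + 8 * sht τ + 5 * C₁ := by
        have := hsub P' P₀
        linarith [hG.2, hG0.2]
      have hj : ∀ j, sht (P' - P₀ + T 0 - T j) / 2 ≤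
          (8 * b₁ + 8 * sht τ + 5 * C₁) + (sht (T 0 - T j) + C₁) := by
        intro j
        have e : P' - P₀ + T 0 - T j = (P' - P₀) + (T 0 - T j) := by abel
        rw [e]
        have := hadd (P' - P₀) (T 0 - T j)
        linarith
      refine (Finset.sum_le_sum fun j _ => hj j).trans ?_
      rw [Finset.sum_add_distrib, Finset.sum_const, Finset.card_univ, Fintype.card_fin, nsmul_eq_mul]
      have hb : α * b₁ = B - β := by rw [hb₁]; field_simp
      push_cast
      rw [hβ, hα] at hb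
      linarith
    · have : {v : HeightOneSpectrum (𝓞 K) | ∃ j, Meets v (P' - P₀ + T 0 - T j)} =
          ⋃ j, {v : HeightOneSpectrum (𝓞 K) | Meets v (P' - P₀ + T 0 - T j)} := by
        ext v; simp
      rw [this]
      exact Set.finite_iUnion fun j => (hmeet _).1
    · -- the counting function
      have hj : ∀ j, ∑ w ∈ U.filter (fun w => Meets w (P' - P₀ + T 0 - T j)), ell w ≤
          sht (P' - P₀ + T 0 - T j) / 2 + (ell v + C₂) := by
        intro j
        have := ((hmeet (P' - P₀ + T 0 - T j)).2 v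
          (U.filter (fun w => Meets w (P' - P₀ + T 0 - T j)))
          fun w hw => (Finset.mem_filter.1 hw).2).1
        linarith
      have hj0 : ∑ w ∈ U.filter (fun w => Meets w (P' - P₀ + T 0 - T 0)), ell w ≤
          sht (P' - P₀ + T 0 - T 0) / 2 + (ell v + C₂) - m * ell v := by
        have := ((hmeet (P' - P₀ + T 0 - T 0)).2 v
          (U.filter (fun w => Meets w (P' - P₀ + T 0 - T 0)))
          fun w hw => (Finset.mem_filter.1 hw).2).2 X Y hXY (by rw [hR0]; exact hR)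
        linarith
      have hUle : ∑ w ∈ U, ell w ≤
          ∑ j, ∑ w ∈ U.filter (fun w => Meets w (P' - P₀ + T 0 - T j)), ell w := by
        simp_rw [Finset.sum_filter]
        rw [Finset.sum_comm]
        refine Finset.sum_le_sum fun w hw => ?_
        obtain ⟨j, hj⟩ := hU w hw
        refine le_trans (le_of_eq (if_pos hj).symm) (Finset.single_le_sum
          (f := fun j => if Meets w (P' - P₀ + T 0 - T j) then ell w else 0)
          (fun i _ => ?_) (Finset.mem_univ j))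
        split_ifs
        · exact (ell_pos w).le
        · exact le_rfl
      have hsplit : ∑ j, ∑ w ∈ U.filter (fun w => Meets w (P' - P₀ + T 0 - T j)), ell w ≤
          ∑ j, (sht (P' - P₀ + T 0 - T j) / 2 + (ell v + C₂)) - m * ell v := by
        rw [← Finset.add_sum_erase _ _ (Finset.mem_univ (0 : Fin (q + 1))),
          ← Finset.add_sum_erase (Finset.univ : Finset (Fin (q + 1)))
            (fun j => sht (P' - P₀ + T 0 - T j) / 2 + (ell v + C₂)) (Finset.mem_univ 0)]
        have := Finset.sum_le_sum fun j (_ : j ∈ Finset.univ.erase (0 : Fin (q + 1))) => hj j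
        linarith
      rw [Finset.sum_add_distrib, Finset.sum_const, Finset.card_univ, Fintype.card_fin,
        nsmul_eq_mul] at hsplit
      push_cast at hsplit
      linarith

end Pool.Agent.J4.H51.El
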